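import Mathlib

/-!
# Zagier's conjecture on Dedekind zeta values: reduction to fields with few automorphisms
-/

set_option autoImplicit false

open Module NumberField Polynomial

namespace Pool.Agent.R912.ZG

/-- The number `d_m` of the number field `L`: `r₁ + r₂` for odd `m` and `r₂` for even `m`. -/
noncomputable def dd (L : Type) [Field L] [NumberField L] (m : ℕ) : ℕ :=
  if Odd m then InfinitePlace.nrRealPlaces L + InfinitePlace.nrComplexPlaces L
  else InfinitePlace.nrComplexPlaces L

/-- `τ` is a system of embeddings as in Zagier's conjecture for `n`: for odd `n` the real embeddings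
and one from each pair of complex ones, for even `n` one from each pair of complex embeddings. -/
structure IsReps (n : ℕ) {L : Type} [Field L] {d : ℕ} (τ : Fin d → (L →+* ℂ)) : Prop where
  inj : ∀ i j, (τ i = τ j ∨ τ i = ComplexEmbedding.conjugate (τ j)) → i = j
  nonreal : Even n → ∀ i, ComplexEmbedding.conjugate (τ i) ≠ τ i
  all : ∀ σ : L →+* ℂ, (Odd n ∨ ComplexEmbedding.conjugate σ ≠ σ) →
    ∃ i, σ = τ i ∨ σ = ComplexEmbedding.conjugate (τ i)

/-- The determinant `det (y_i(τ_j))`. -/
noncomputable def reg {L : Type} [Field L] {d : ℕ} (τ : Fin d → (L →+* ℂ))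
    (y : Fin d → ((L →+* ℂ) → ℝ)) : ℝ :=
  Matrix.det (Matrix.of fun i j => y i (τ j))

/-- The right hand side of Zagier's formula, without the rational factor. -/
noncomputable def rhs (n : ℕ) (L : Type) [Field L] [NumberField L]
    (τ : Fin (dd L n) → (L →+* ℂ)) (y : Fin (dd L n) → ((L →+* ℂ) → ℝ)) : ℝ :=
  Real.pi ^ (n * dd L (n - 1)) / Real.sqrt |(discr L : ℝ)| * reg τ y

/-- For each number field `L` a `ℚ`-vector space of real functions on the set of embeddings. -/
abbrev Family : Type 1 :=
  ∀ (L : Type) [Field L] [NumberField L], Submodule ℚ ((L →+* ℂ) → ℝ)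

/-- The spaces of `B` are contained in those of `K`. -/
def Contained (B K : Family) : Prop :=
  ∀ (L : Type) [Field L] [NumberField L], B L ≤ K L

/-- The value at the complex conjugate embedding is `(-1)^(n-1)` times the value. -/
def ConjugationRule (n : ℕ) (K : Family) : Prop :=
  ∀ (L : Type) [Field L] [NumberField L], ∀ v ∈ K L, ∀ σ : L →+* ℂ,
    v (ComplexEmbedding.conjugate σ) = (-1) ^ (n - 1) * v σ

/-- The function on the embeddings of `L'` given by restriction to `L`. -/
def pull {L L' : Type} [Field L] [Field L'] (f : L →+* L') (v : (L →+* ℂ) → ℝ) :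
    (L' →+* ℂ) → ℝ := fun σ => v (σ.comp f)

/-- Functoriality for homomorphisms of number fields. -/
def Functorial (K : Family) : Prop :=
  ∀ (L L' : Type) [Field L] [NumberField L] [Field L'] [NumberField L'] (f : L →+* L'),
    ∀ v ∈ K L, pull f v ∈ K L'

/-- The consequence of the existence of a transfer. -/
def HasTransfer (K : Family) : Prop :=
  ∀ (L L' : Type) [Field L] [NumberField L] [Field L'] [NumberField L'] (f : L →+* L')
    (v : (L →+* ℂ) → ℝ), pull f v ∈ K L' → v ∈ K L

/-- Finite dimension. -/
def FiniteDim (K : Family) : Prop :=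
  ∀ (L : Type) [Field L] [NumberField L], Module.Finite ℚ (K L)

/-- The dimension is `d_n`. -/
def HasRank (n : ℕ) (K : Family) : Prop :=
  ∀ (L : Type) [Field L] [NumberField L], finrank ℚ (K L) = dd L n

/-- `ζ_L(n)` is a nonzero rational multiple of the right hand side. -/
def Formula (n : ℕ) (L : Type) [Field L] [NumberField L]
    (τ : Fin (dd L n) → (L →+* ℂ)) (y : Fin (dd L n) → ((L →+* ℂ) → ℝ)) : Prop :=
  ∃ q : ℚ, q ≠ 0 ∧ dedekindZeta L n = ((q * rhs n L τ y : ℝ) : ℂ)

/-- Borel's theorem: the regulator of linearly independent elements is not zero, and `ζ_L(n)` is a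
rational multiple of it. -/
def Borel (n : ℕ) (K : Family) : Prop :=
  ∀ (L : Type) [Field L] [NumberField L] (τ : Fin (dd L n) → (L →+* ℂ)), IsReps n τ →
    ∀ b : Fin (dd L n) → ((L →+* ℂ) → ℝ), (∀ i, b i ∈ K L) → LinearIndependent ℚ b →
      reg τ b ≠ 0 ∧ Formula n L τ b

/-- The regulators in weight `n` of all number fields, and what is known about them. Elements of
`K_{2n-1}(L) ⊗ ℚ` and of `ker δ_n ⊗ ℚ` are replaced by their values: the functions
`σ ↦ reg (σ v)` and `σ ↦ L̃_n (σ y)` on the set of embeddings `σ` of `L` in `ℂ`. -/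
structure Regulators (n : ℕ) where
  /-- the functions `σ ↦ reg (σ v)`, `v` in `K_{2n-1}(L) ⊗ ℚ` (Borel regulator, normalised real) -/
  KL : Family
  /-- the functions `σ ↦ L̃_n (σ y)`, `y` in `ker δ_n ⊗ ℚ` -/
  BL : Family
  /-- Beilinson, Deligne, de Jeu: the map from `ker δ_n ⊗ ℚ` to `K_{2n-1}(L) ⊗ ℚ` -/
  le : Contained BL KL
  /-- complex conjugation -/
  conj : ConjugationRule n KL
  /-- functoriality of `K_{2n-1}` -/
  mapK : Functorial KL
  /-- functoriality of `ker δ_n` -/
  mapB : Functorial BL
  /-- transfer for `K_{2n-1}` -/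
  transfer : HasTransfer KL
  /-- Borel: the rank is `d_n` -/
  finite : FiniteDim KL
  rank : HasRank n KL
  /-- Borel: the regulator is not zero, and a rational multiple of the zeta value -/
  borel : Borel n KL

/-- Zagier's conjecture for `n` and `L`. -/
def Zagier {n : ℕ} (T : Regulators n) (L : Type) [Field L] [NumberField L] : Prop :=
  ∀ τ : Fin (dd L n) → (L →+* ℂ), IsReps n τ → ∃ y : Fin (dd L n) → ((L →+* ℂ) → ℝ),
    (∀ i, y i ∈ T.BL L) ∧ Formula n L τ y

/-- Systems of embeddings exist. -/
lemma exists_reps (n : ℕ) (L : Type) [Field L] [NumberField L] :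
    ∃ τ : Fin (dd L n) → (L →+* ℂ), IsReps n τ := by
  classical
  by_cases hn : Odd n
  · have hc : Fintype.card (InfinitePlace L) = dd L n := by
      rw [dd, if_pos hn, InfinitePlace.card_eq_nrRealPlaces_add_nrComplexPlaces]
    let e : Fin (dd L n) ≃ InfinitePlace L := (Fintype.equivFinOfCardEq hc).symm
    refine ⟨fun i => (e i).embedding, ?_, ?_, ?_⟩
    · intro i j h
      apply e.injective
      rw [← InfinitePlace.mk_embedding (e i), ← InfinitePlace.mk_embedding (e j),
        InfinitePlace.mk_eq_iff]
      rcases h with h | h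
      · exact Or.inl h
      · right
        rw [h]
        exact star_star _
    · intro h
      exact absurd hn (Nat.not_odd_iff_even.2 h)
    · intro σ _
      refine ⟨e.symm (InfinitePlace.mk σ), ?_⟩
      rw [Equiv.apply_symm_apply]
      have h1 := InfinitePlace.mk_embedding (InfinitePlace.mk σ)
      rw [InfinitePlace.mk_eq_iff] at h1
      rcases h1 with h | h
      · exact Or.inl h.symm
      · exact Or.inr h.symm
  · have hc : Fintype.card {w : InfinitePlace L // w.IsComplex} = dd L n := by
      rw [dd, if_neg hn]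
    let e : Fin (dd L n) ≃ {w : InfinitePlace L // w.IsComplex} :=
      (Fintype.equivFinOfCardEq hc).symm
    refine ⟨fun i => (e i : InfinitePlace L).embedding, ?_, ?_, ?_⟩
    · intro i j h
      apply e.injective
      apply Subtype.ext
      rw [← InfinitePlace.mk_embedding (e i : InfinitePlace L),
        ← InfinitePlace.mk_embedding (e j : InfinitePlace L), InfinitePlace.mk_eq_iff]
      rcases h with h | h
      · exact Or.inl h
      · right
        rw [h]
        exact star_star _
    · intro _ i
      exact (InfinitePlace.isComplex_iff.1 (e i).2)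
    · intro σ h
      have h2 : ComplexEmbedding.conjugate σ ≠ σ := h.resolve_left hn
      have h3 : (InfinitePlace.mk σ).IsComplex := ⟨σ, h2, rfl⟩
      refine ⟨e.symm ⟨InfinitePlace.mk σ, h3⟩, ?_⟩
      rw [Equiv.apply_symm_apply]
      have h1 := InfinitePlace.mk_embedding (InfinitePlace.mk σ)
      rw [InfinitePlace.mk_eq_iff] at h1
      rcases h1 with h | h
      · exact Or.inl h.symm
      · exact Or.inr h.symm

variable {n : ℕ} (T : Regulators n)

lemma const_ne (L : Type) [Field L] [NumberField L] (n : ℕ) :
    Real.pi ^ (n * dd L (n - 1)) / Real.sqrt |(discr L : ℝ)| ≠ 0 := by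
  have h1 : (discr L : ℝ) ≠ 0 := by exact_mod_cast discr_ne_zero L
  have h2 : 0 < |(discr L : ℝ)| := abs_pos.2 h1
  have h3 := Real.sqrt_pos.2 h2
  have := Real.pi_pos
  positivity

/-- Zagier's conjecture for `L` means that `ker δ_n` gives all of `K_{2n-1}(L)`. -/
lemma zagier_iff (L : Type) [Field L] [NumberField L] : Zagier T L ↔ T.BL L = T.KL L := by
  have := T.finite L
  constructor
  · intro h
    obtain ⟨τ, hτ⟩ := exists_reps n L
    obtain ⟨y, hy, q, hq, hz⟩ := h τ hτ
    -- the zeta value is not zero
    let b := finBasisOfFinrankEq ℚ (T.KL L) (T.rank L)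
    have hb : LinearIndependent ℚ (fun i => (b i : (L →+* ℂ) → ℝ)) :=
      b.linearIndependent.map' (T.KL L).subtype (Submodule.ker_subtype _)
    obtain ⟨h1, q', hq', hz'⟩ := T.borel L τ hτ (fun i => (b i : (L →+* ℂ) → ℝ))
      (fun i => (b i).2) hb
    have h2 : dedekindZeta L n ≠ 0 := by
      rw [hz']
      have h3 : ((q' : ℝ) * rhs n L τ fun i => (b i : (L →+* ℂ) → ℝ)) ≠ 0 :=
        mul_ne_zero (by exact_mod_cast hq') (mul_ne_zero (const_ne L n) h1)
      exact_mod_cast h3
    have h4 : reg τ y ≠ 0 := by
      intro h5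
      apply h2
      rw [hz, rhs, h5]
      simp
    have h5 : LinearIndependent ℚ y := by
      rw [Fintype.linearIndependent_iff]
      intro g hg i
      have h6 : Matrix.vecMul (fun i => (g i : ℝ)) (Matrix.of fun i j => y i (τ j)) = 0 := by
        ext j
        have h7 := congrFun hg (τ j)
        rw [Finset.sum_apply] at h7
        simp only [Pi.smul_apply, Rat.smul_def, Pi.zero_apply] at h7
        simp only [Matrix.vecMul, dotProduct, Matrix.of_apply, Pi.zero_apply]
        exact h7
      have h8 := Matrix.eq_zero_of_vecMul_eq_zero h4 h6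
      have h9 := congrFun h8 i
      simpa using h9
    have h6 : LinearIndependent ℚ (fun i => (⟨y i, hy i⟩ : T.BL L)) := by
      apply LinearIndependent.of_comp (T.BL L).subtype
      exact h5
    have : Module.Finite ℚ (T.BL L) :=
      Module.Finite.of_injective (Submodule.inclusion (T.le L)) (Submodule.inclusion_injective _)
    have h7 := h6.fintype_card_le_finrank
    rw [Fintype.card_fin, ← T.rank L] at h7
    exact Submodule.eq_of_le_of_finrank_le (T.le L) h7
  · intro h τ hτ
    let b := finBasisOfFinrankEq ℚ (T.KL L) (T.rank L)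
    have hb : LinearIndependent ℚ (fun i => (b i : (L →+* ℂ) → ℝ)) :=
      b.linearIndependent.map' (T.KL L).subtype (Submodule.ker_subtype _)
    obtain ⟨-, q', hq', hz'⟩ := T.borel L τ hτ (fun i => (b i : (L →+* ℂ) → ℝ))
      (fun i => (b i).2) hb
    exact ⟨fun i => (b i : (L →+* ℂ) → ℝ), fun i => by rw [h]; exact (b i).2, q', hq', hz'⟩

/-- Embeddings with the same restriction to a fixed field. -/
lemma exists_aut {L : Type} [Field L] [NumberField L] (H : Subgroup (L ≃ₐ[ℚ] L))
    {σ σ' : L →+* ℂ}
    (h : σ.comp (algebraMap (IntermediateField.fixedField H) L) =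
      σ'.comp (algebraMap (IntermediateField.fixedField H) L)) :
    ∃ g ∈ H, σ' = σ.comp (g : L →+* L) := by
  set F := IntermediateField.fixedField H with hF
  have hcard : Nat.card (L ≃ₐ[F] L) = finrank F L := by
    rw [hF, IntermediateField.finrank_fixedField_eq_card]
    rw [← Nat.card_congr (IntermediateField.fixingSubgroupEquiv
      (IntermediateField.fixedField H)).toEquiv, IntermediateField.fixingSubgroup_fixedField]
  have hG : IsGalois F L := IsGalois.of_card_aut_eq_finrank F L hcard
  let _ : Algebra L ℂ := σ.toAlgebra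
  let ψ : L →ₐ[F] ℂ := { σ' with
    commutes' := fun x => by
      have := RingHom.congr_fun h x
      exact this.symm }
  let g := Normal.algHomEquivAut F ℂ L ψ
  have hg : ψ = (IsScalarTower.toAlgHom F L ℂ).comp g.toAlgHom :=
    ((Normal.algHomEquivAut F ℂ L).symm_apply_apply ψ).symm
  let g' : L ≃ₐ[ℚ] L := g.restrictScalars ℚ
  refine ⟨g', ?_, ?_⟩
  · rw [← IntermediateField.fixingSubgroup_fixedField H, IntermediateField.mem_fixingSubgroup_iff]
    intro x hx
    exact g.commutes ⟨x, hx⟩
  · ext x
    have := DFunLike.congr_fun hg x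
    exact this

lemma degree_lt {L : Type} [Field L] [NumberField L] {g : L ≃ₐ[ℚ] L} (hg : g ≠ 1) :
    finrank ℚ (IntermediateField.fixedField (Subgroup.zpowers g)) < finrank ℚ L := by
  have h1 := finrank_mul_finrank ℚ (IntermediateField.fixedField (Subgroup.zpowers g)) L
  have h2 : finrank (IntermediateField.fixedField (Subgroup.zpowers g)) L =
    Nat.card (Subgroup.zpowers g) := IntermediateField.finrank_fixedField_eq_card _
  have h3 : 1 < Nat.card (Subgroup.zpowers g) := by
    rw [Nat.card_zpowers]
    have h4 : orderOf g ≠ 1 := fun h => hg (orderOf_eq_one_iff.1 h)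
    have h5 := orderOf_pos g
    omega
  have h4 : 0 < finrank ℚ (IntermediateField.fixedField (Subgroup.zpowers g)) := finrank_pos
  rw [h2] at h1
  nlinarith

/-- The functions which are invariant under an automorphism. -/
lemma invariant {L : Type} [Field L] [NumberField L] {g : L ≃ₐ[ℚ] L}
    (ih : T.BL (IntermediateField.fixedField (Subgroup.zpowers g)) =
      T.KL (IntermediateField.fixedField (Subgroup.zpowers g)))
    {w : (L →+* ℂ) → ℝ} (hw : w ∈ T.KL L)
    (hgw : ∀ σ : L →+* ℂ, w (σ.comp (g : L →+* L)) = w σ) : w ∈ T.BL L := by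
  classical
  set H := Subgroup.zpowers g with hH
  set F := IntermediateField.fixedField H with hF
  have hinv : ∀ h ∈ H, ∀ σ : L →+* ℂ, w (σ.comp (h : L →+* L)) = w σ := by
    let S : Subgroup (L ≃ₐ[ℚ] L) :=
      { carrier := {h | ∀ σ : L →+* ℂ, w (σ.comp (h : L →+* L)) = w σ}
        one_mem' := fun σ => rfl
        mul_mem' := by
          intro a b ha hb σ
          have h1 := ha σ
          have h2 := hb (σ.comp (a : L →+* L))
          rw [← h1, ← h2]
          rfl
        inv_mem' := by
          intro a ha σ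
          have h1 := ha (σ.comp ((a⁻¹ : L ≃ₐ[ℚ] L) : L →+* L))
          rw [← h1]
          congr 1
          ext x
          change σ (a.symm (a x)) = σ x
          rw [AlgEquiv.symm_apply_apply] }
    have hS : H ≤ S := by
      rw [hH, Subgroup.zpowers_le]
      exact hgw
    exact fun h hh => hS hh
  let f : F →+* L := algebraMap F L
  let u : (F →+* ℂ) → ℝ := fun ρ => if h : ∃ σ : L →+* ℂ, σ.comp f = ρ then w h.choose else 0
  have hu : ∀ σ : L →+* ℂ, w σ = u (σ.comp f) := by
    intro σ
    have h : ∃ σ' : L →+* ℂ, σ'.comp f = σ.comp f := ⟨σ, rfl⟩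
    have h1 : u (σ.comp f) = w h.choose := dif_pos h
    rw [h1]
    obtain ⟨a, ha, hσ⟩ := exists_aut H (σ := h.choose) (σ' := σ) h.choose_spec
    calc w σ = w (h.choose.comp (a : L →+* L)) := congrArg w hσ
      _ = w h.choose := hinv a ha _
  have h1 : pull f u = w := funext fun σ => (hu σ).symm
  have h2 : u ∈ T.KL F := T.transfer F L f u (by rw [h1]; exact hw)
  rw [← ih] at h2
  have h3 := T.mapB F L f u h2
  rwa [h1] at h3

end Pool.Agent.R912.ZG
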