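import Pool.Agent.R912.ZG.Main

/-!
# Zagier's conjecture: the reduction
-/

set_option autoImplicit false

open Module NumberField

namespace Pool.Agent.R912.ZG

/-- All subgroups of order `p q` (`p`, `q` primes, possibly equal) of the automorphism group of `L`
are cyclic. -/
def CyclicPQ (L : Type) [Field L] [NumberField L] : Prop :=
  ∀ (N : Subgroup (L ≃ₐ[ℚ] L)) (p q : ℕ), p.Prime → q.Prime → Nat.card N = p * q → IsCyclic N

/-- `L` is a CM field: it has an automorphism `c ≠ 1` which is complex conjugation at all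
embeddings. -/
def IsCM (L : Type) [Field L] [NumberField L] : Prop :=
  ∃ c : L ≃ₐ[ℚ] L, c ≠ 1 ∧
    ∀ σ : L →+* ℂ, σ.comp (c : L →+* L) = ComplexEmbedding.conjugate σ

/-- `L` is totally real. -/
def IsTotReal (L : Type) [Field L] [NumberField L] : Prop :=
  ∀ σ : L →+* ℂ, ComplexEmbedding.conjugate σ = σ

/-- Zagier's conjecture for the fixed fields of the automorphisms `g ≠ 1` of `L`. -/
def ZagierBelow {n : ℕ} (T : Regulators n) (L : Type) [Field L] [NumberField L] : Prop :=
  ∀ g : L ≃ₐ[ℚ] L, g ≠ 1 → Zagier T (IntermediateField.fixedField (Subgroup.zpowers g))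

variable {n : ℕ} (T : Regulators n)

/-- The action of an automorphism on functions. -/
def act {L : Type} [Field L] [NumberField L] (g : L ≃ₐ[ℚ] L) (v : (L →+* ℂ) → ℝ) :
    (L →+* ℂ) → ℝ := fun σ => v (σ.comp (g : L →+* L))

lemma act_mem {L : Type} [Field L] [NumberField L] (g : L ≃ₐ[ℚ] L) {v : (L →+* ℂ) → ℝ}
    (hv : v ∈ T.KL L) : act g v ∈ T.KL L := T.mapK L L (g : L →+* L) v hv

lemma act_act {L : Type} [Field L] [NumberField L] (g h : L ≃ₐ[ℚ] L) (v : (L →+* ℂ) → ℝ) :
    act g (act h v) = act (g * h) v := rfl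

lemma act_one {L : Type} [Field L] [NumberField L] (v : (L →+* ℂ) → ℝ) :
    act (1 : L ≃ₐ[ℚ] L) v = v := rfl

open scoped Classical in
/-- Subgroups with a partition. -/
lemma partition {L : Type} [Field L] [NumberField L]
    (ih : ∀ g : L ≃ₐ[ℚ] L, g ≠ 1 →
      T.BL (IntermediateField.fixedField (Subgroup.zpowers g)) =
        T.KL (IntermediateField.fixedField (Subgroup.zpowers g)))
    (N : Subgroup (L ≃ₐ[ℚ] L)) {p q : ℕ} (hp : p.Prime) (hq : q.Prime)
    (hN : Nat.card N = p * q) (hcyc : ¬ IsCyclic N) {v : (L →+* ℂ) → ℝ} (hv : v ∈ T.KL L) :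
    v ∈ T.BL L := by
  -- the order of the elements is prime
  have hord : ∀ g : N, g ≠ 1 → (orderOf g).Prime := by
    intro g hg
    have h1 : orderOf g ∣ p * q := by rw [← hN]; exact orderOf_dvd_natCard g
    have h2 : orderOf g ≠ 1 := fun h => hg (orderOf_eq_one_iff.1 h)
    have h3 : orderOf g ≠ p * q := by
      intro h
      apply hcyc
      exact isCyclic_of_orderOf_eq_card g (by rw [h, hN])
    obtain ⟨a, b, ha, hb, hab⟩ := (Nat.dvd_mul).1 h1
    rw [← hab] at h2 h3 ⊢
    rcases (Nat.dvd_prime hp).1 ha with rfl | rfl <;> rcases (Nat.dvd_prime hq).1 hb with rfl | rfl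
    · exact absurd rfl h2
    · rw [one_mul]; exact hq
    · rw [mul_one]; exact hp
    · exact absurd rfl h3
  -- the subgroups generated by one element
  let P : Finset (Subgroup N) := (Finset.univ.filter fun g : N => g ≠ 1).image Subgroup.zpowers
  have huniq : ∀ h : N, h ≠ 1 → ∀ H ∈ P, (h ∈ H ↔ H = Subgroup.zpowers h) := by
    intro h hh H hH
    obtain ⟨g, hg, rfl⟩ := Finset.mem_image.1 hH
    have hg1 : g ≠ 1 := (Finset.mem_filter.1 hg).2
    constructor
    · intro h1
      have h2 : Subgroup.zpowers h ≤ Subgroup.zpowers g := by rwa [Subgroup.zpowers_le]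
      have h3 : Nat.card (Subgroup.zpowers g) = Nat.card (Subgroup.zpowers h) := by
        have h4 := Subgroup.card_dvd_of_le h2
        rw [Nat.card_zpowers, Nat.card_zpowers] at h4 ⊢
        rcases (Nat.dvd_prime (hord g hg1)).1 h4 with h5 | h5
        · exact absurd (orderOf_eq_one_iff.1 h5) hh
        · exact h5.symm
      exact (Subgroup.eq_of_le_of_card_ge h2 h3.le).symm
    · rintro rfl'
      rw [rfl']
      exact Subgroup.mem_zpowers h
  have hmem : ∀ h : N, h ≠ 1 → Subgroup.zpowers h ∈ P := fun h hh =>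
    Finset.mem_image.2 ⟨h, Finset.mem_filter.2 ⟨Finset.mem_univ _, hh⟩, rfl⟩
  -- there are at least two of them
  have hcard : 1 < P.card := by
    rw [Finset.one_lt_card]
    have hnt : Nontrivial N := by
      rw [← Finite.one_lt_card_iff_nontrivial, hN]
      exact Nat.one_lt_mul_iff.2 ⟨hp.pos, hq.pos, Or.inl hp.one_lt⟩
    obtain ⟨g, hg⟩ := exists_ne (1 : N)
    have h1 : ∃ h : N, h ∉ Subgroup.zpowers g := by
      by_contra h2
      push Not at h2
      exact hcyc ⟨g, h2⟩
    obtain ⟨h, hh⟩ := h1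
    have hh1 : h ≠ 1 := fun h2 => hh (by rw [h2]; exact Subgroup.one_mem _)
    refine ⟨_, hmem g hg, _, hmem h hh1, ?_⟩
    intro h2
    exact hh (by rw [h2]; exact Subgroup.mem_zpowers h)
  -- the sums over subgroups
  let E : Subgroup N → ((L →+* ℂ) → ℝ) := fun H =>
    ∑ h : N, if h ∈ H then act (h : L ≃ₐ[ℚ] L) v else 0
  have hE : ∀ H : Subgroup N, ∀ g : N, g ≠ 1 → g ∈ H → E H ∈ T.BL L := by
    intro H g hg hgH
    refine invariant T (g := (g : L ≃ₐ[ℚ] L)) (ih _ (fun h => hg (Subtype.ext h))) ?_ ?_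
    · refine Submodule.sum_mem _ fun h _ => ?_
      split_ifs
      · exact act_mem T _ hv
      · exact Submodule.zero_mem _
    · intro σ
      simp only [E, Finset.sum_apply]
      refine Fintype.sum_equiv (Equiv.mulLeft g) _ _ fun h => ?_
      have h1 : (g * h ∈ H) ↔ h ∈ H := Subgroup.mul_mem_cancel_left _ hgH
      by_cases hh : h ∈ H
      · rw [if_pos hh, if_pos (show (Equiv.mulLeft g) h ∈ H from h1.2 hh)]
        rfl
      · rw [if_neg hh, if_neg (show ¬ (Equiv.mulLeft g) h ∈ H from fun h2 => hh (h1.1 h2))]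
        rfl
  have hsum : ∑ H ∈ P, E H = ((P.card : ℚ) - 1) • v + E ⊤ := by
    have h1 : ∑ H ∈ P, E H = ∑ h : N, ∑ H ∈ P, if h ∈ H then act (h : L ≃ₐ[ℚ] L) v else 0 :=
      Finset.sum_comm
    have h2 : ∀ h : N, (∑ H ∈ P, if h ∈ H then act (h : L ≃ₐ[ℚ] L) v else 0) =
        (if h = 1 then ((P.card : ℚ) - 1) • v else 0) + act (h : L ≃ₐ[ℚ] L) v := by
      intro h
      by_cases hh : h = 1
      · subst hh
        have h3 : ∀ H ∈ P, (if (1 : N) ∈ H then act ((1 : N) : L ≃ₐ[ℚ] L) v else 0) = v := by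
          intro H _
          rw [if_pos (Subgroup.one_mem H)]
          rfl
        rw [Finset.sum_congr rfl h3, Finset.sum_const, if_pos rfl]
        have h4 : act ((1 : N) : L ≃ₐ[ℚ] L) v = v := rfl
        rw [h4, sub_smul, one_smul, sub_add_cancel, Nat.cast_smul_eq_nsmul]
      · rw [if_neg hh, zero_add]
        have h3 : ∀ H ∈ P, (if h ∈ H then act (h : L ≃ₐ[ℚ] L) v else 0) =
            if H = Subgroup.zpowers h then act (h : L ≃ₐ[ℚ] L) v else 0 := by
          intro H hH
          simp only [huniq h hh H hH]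
        rw [Finset.sum_congr rfl h3, Finset.sum_ite_eq' P, if_pos (hmem h hh)]
    rw [h1, Finset.sum_congr rfl fun h _ => h2 h, Finset.sum_add_distrib, Finset.sum_ite_eq',
      if_pos (Finset.mem_univ _)]
    congr 1
    simp only [E]
    refine Finset.sum_congr rfl fun h _ => ?_
    rw [if_pos (Subgroup.mem_top h)]
  have hnt : Nontrivial N := by
    rw [← Finite.one_lt_card_iff_nontrivial, hN]
    exact Nat.one_lt_mul_iff.2 ⟨hp.pos, hq.pos, Or.inl hp.one_lt⟩
  obtain ⟨g, hg⟩ := exists_ne (1 : N)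
  have h1 : ∑ H ∈ P, E H ∈ T.BL L := by
    refine Submodule.sum_mem _ fun H hH => ?_
    obtain ⟨g, hg, rfl⟩ := Finset.mem_image.1 hH
    exact hE _ g (Finset.mem_filter.1 hg).2 (Subgroup.mem_zpowers g)
  have h2 : E ⊤ ∈ T.BL L := hE ⊤ g hg (Subgroup.mem_top g)
  have h3 : ((P.card : ℚ) - 1) • v ∈ T.BL L := by
    have h4 : ((P.card : ℚ) - 1) • v = (∑ H ∈ P, E H) - E ⊤ := by rw [hsum, add_sub_cancel_right]
    rw [h4]
    exact Submodule.sub_mem _ h1 h2
  have h4 : ((P.card : ℚ) - 1) ≠ 0 := by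
    have : (1 : ℚ) < P.card := by exact_mod_cast hcard
    linarith
  exact (Submodule.smul_mem_iff _ h4).1 h3

/-- CM fields for odd `n`. -/
lemma cm_case {L : Type} [Field L] [NumberField L] (hn : Odd n)
    (ih : ∀ g : L ≃ₐ[ℚ] L, g ≠ 1 →
      T.BL (IntermediateField.fixedField (Subgroup.zpowers g)) =
        T.KL (IntermediateField.fixedField (Subgroup.zpowers g)))
    (hL : IsCM L) {v : (L →+* ℂ) → ℝ} (hv : v ∈ T.KL L) : v ∈ T.BL L := by
  obtain ⟨c, hc, hconj⟩ := hL
  refine invariant T (ih c hc) hv fun σ => ?_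
  rw [hconj, T.conj L v hv]
  have h1 : Even (n - 1) := by
    obtain ⟨k, rfl⟩ := hn
    exact ⟨k, by omega⟩
  rw [h1.neg_one_pow, one_mul]

/-- Totally real fields for even `n`. -/
lemma real_case {L : Type} [Field L] [NumberField L] (hn : Even n) (hL : IsTotReal L)
    {v : (L →+* ℂ) → ℝ} (hv : v ∈ T.KL L) : v ∈ T.BL L := by
  classical
  have := T.finite L
  have h1 : dd L n = 0 := by
    rw [dd, if_neg (Nat.not_odd_iff_even.2 hn)]
    rw [Fintype.card_eq_zero_iff]
    refine ⟨fun w => ?_⟩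
    obtain ⟨w, hw⟩ := w
    exact InfinitePlace.isComplex_iff.1 hw (hL _)
  have h2 : finrank ℚ (T.KL L) = 0 := by rw [T.rank L, h1]
  have h3 : T.KL L = ⊥ := Submodule.finrank_eq_zero.1 h2
  rw [h3, Submodule.mem_bot] at hv
  rw [hv]
  exact Submodule.zero_mem _

/-- One field. -/
theorem main_one (L : Type) [Field L] [NumberField L]
    (hL : ¬ CyclicPQ L ∨ (Odd n ∧ IsCM L) ∨ (Even n ∧ IsTotReal L))
    (h : ZagierBelow T L) : Zagier T L := by
  rw [zagier_iff]
  have ih := fun (g : L ≃ₐ[ℚ] L) (hg : g ≠ 1) =>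
    (zagier_iff T (IntermediateField.fixedField (Subgroup.zpowers g))).1 (h g hg)
  rcases hL with h1 | h1 | h1
  · rw [CyclicPQ] at h1
    push Not at h1
    obtain ⟨N, p, q, hp, hq, hN, hcyc⟩ := h1
    exact le_antisymm (T.le L) fun v hv => partition T ih N hp hq hN hcyc hv
  · exact le_antisymm (T.le L) fun v hv => cm_case T h1.1 ih h1.2 hv
  · exact le_antisymm (T.le L) fun v hv => real_case T h1.1 h1.2 hv

/-- The reduction. -/
theorem main :
    (∀ (L : Type) [Field L] [NumberField L], Zagier T L) ↔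
      ∀ (L : Type) [Field L] [NumberField L], CyclicPQ L → ¬ (Odd n ∧ IsCM L) →
        ¬ (Even n ∧ IsTotReal L) → Zagier T L := by
  constructor
  · intro h L _ _ _ _ _
    exact h L
  · intro h
    have key : ∀ (m : ℕ) (L : Type) [Field L] [NumberField L], finrank ℚ L = m →
        Zagier T L := by
      intro m
      induction m using Nat.strong_induction_on with
      | _ m IH =>
      intro L _ _ hm
      by_cases hL : ¬ CyclicPQ L ∨ (Odd n ∧ IsCM L) ∨ (Even n ∧ IsTotReal L)
      · exact main_one T L hL fun g hg => IH _ (hm ▸ degree_lt hg) _ rfl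
      · push Not at hL
        exact h L hL.1 (fun h1 => hL.2.1 h1.1 h1.2) (fun h1 => hL.2.2 h1.1 h1.2)
    intro L _ _
    exact key _ L rfl

end Pool.Agent.R912.ZG
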